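import Pool.Agent.Helper537.CalFinal

/-!
Calderon's formula fails for some orthonormal wavelets with non-expansive dilations: the answer to
both questions is negative. The definitions (`wav`, `IsOrthonormalWavelet`, `IsParsevalWavelet`,
`CalderonFormula`, `intLattice`) are in `Pool/Agent/Helper537/CalDefs.lean`.
-/

set_option autoImplicit false

namespace Pool.Agent.Results.MP_4002ad_an.CalderonFails

open MeasureTheory Pool.Agent.Helper537.Calderon

/-- For all real `lam > 1` and all integers `q ≥ 2` there is a function `ψ ∈ L²(ℝ²)` which is an
orthonormal wavelet (hence a Parseval wavelet) associated with the dilation `diag(lam, 1/q)` and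
the lattice `ℤ²`, and for which Calderon's formula fails. -/
theorem result (lam : ℝ) (hlam : 1 < lam) (q : ℕ) (hq : 2 ≤ q) :
    ∃ A : E 2 ≃L[ℝ] E 2, IsDiag A lam (1 / q) ∧ CalderonFails A (intLattice 2) :=
  main hlam hq

end Pool.Agent.Results.MP_4002ad_an.CalderonFails
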